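import Pool.Agent.H24.Lib.seeded_b0a926ef.R535.AP.Step

/-!
# Scales, primes and numerical conditions
-/

set_option autoImplicit false

open Finset

namespace Pool.Agent.R535.AP

open Pool.Agent.H617R3.AP Pool.Agent.R444.Supersat

theorem poly_exp (A b : ℝ) (n : ℕ) (hb : 0 < b) :
    ∃ s₀ : ℝ, ∀ s : ℝ, s₀ ≤ s → A * s ^ n ≤ Real.exp (b * s) := by
  have e3 : ∀ᶠ s : ℝ in Filter.atTop, ‖s ^ n‖ ≤ (1 / (|A| + 1)) * ‖Real.exp (b * s)‖ :=
    (isLittleO_pow_exp_pos_mul_atTop n hb).def (by positivity)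
  obtain ⟨s₀, h⟩ := (e3.and (Filter.eventually_ge_atTop (0 : ℝ))).exists_forall_of_atTop
  refine ⟨s₀, fun s hs => ?_⟩
  obtain ⟨h1, h2⟩ := h s hs
  rw [Real.norm_of_nonneg (by positivity), Real.norm_of_nonneg (Real.exp_pos _).le] at h1
  have hA := le_abs_self A
  have hA0 := abs_nonneg A
  calc A * s ^ n ≤ (|A| + 1) * s ^ n := by
        apply mul_le_mul_of_nonneg_right _ (by positivity)
        linarith
    _ ≤ (|A| + 1) * (1 / (|A| + 1) * Real.exp (b * s)) := by gcongr
    _ = Real.exp (b * s) := by field_simp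

/-- enough primes up to `exp (c s)` -/
theorem primes_avail (c α : ℝ) (hα : 0 ≤ α) (hc : α < c) : ∃ s₀ : ℝ, ∀ s : ℝ, s₀ ≤ s →
    ∃ (D : ℕ) (f : ℕ → ℕ), 1 ≤ D ∧ (∀ i < D, (f i).Prime) ∧ (∀ i < D, (f i : ℝ) ≤ Real.exp (c * s)) ∧
      (∀ i < D, ∀ j < D, i ≠ j → f i ≠ f j) ∧ 3 / 2 * s ^ 2 ≤ D * Real.exp (-(α * s)) := by
  have hc0 : 0 < c := by linarith
  obtain ⟨X₀, hX₀⟩ := Pool.Agent.W346.RB.primes
  obtain ⟨s₁, h1⟩ := poly_exp (60 * c) ((c - α) / 2) 3 (by linarith)
  obtain ⟨s₂, h2⟩ := poly_exp (60 * c) (c / 2) 1 (by linarith)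
  refine ⟨max (max s₁ s₂) (max 1 ((X₀ + 10) / c)), fun s hs => ?_⟩
  have hs1 := h1 s ((le_max_left _ _).trans ((le_max_left _ _).trans hs))
  have hs2 := h2 s ((le_max_right _ _).trans ((le_max_left _ _).trans hs))
  have hs3 : 1 ≤ s := (le_max_left _ _).trans ((le_max_right _ _).trans hs)
  have hs4 : ((X₀ : ℝ) + 10) / c ≤ s := (le_max_right _ _).trans ((le_max_right _ _).trans hs)
  have hs0 : 0 < s := by linarith
  have hcs : (X₀ : ℝ) + 10 ≤ c * s := by
    rw [div_le_iff₀ hc0] at hs4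
    linarith
  have hX0' : (0 : ℝ) ≤ X₀ := Nat.cast_nonneg _
  have hexp := Real.add_one_le_exp (c * s)
  obtain ⟨X, hX⟩ : ∃ X : ℕ, X = ⌊Real.exp (c * s)⌋₊ := ⟨_, rfl⟩
  have hXle : (X : ℝ) ≤ Real.exp (c * s) := by
    rw [hX]; exact Nat.floor_le (Real.exp_pos _).le
  have hXgt : Real.exp (c * s) - 1 < X := by
    rw [hX]; exact Nat.sub_one_lt_floor _
  have hXX₀ : X₀ ≤ X := by
    have : (X₀ : ℝ) < X := by linarith
    exact_mod_cast this.le
  have hX1 : (10 : ℝ) < X := by linarith
  have hlogX : Real.log X ≤ c * s := by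
    rw [Real.log_le_iff_le_exp (by linarith)]
    exact hXle
  have hlogXpos : 0 < Real.log X := Real.log_pos (by linarith)
  obtain ⟨D, hD⟩ : ∃ D : ℕ, D = ⌊(X : ℝ) / (10 * Real.log X)⌋₊ := ⟨_, rfl⟩
  have hDle : (D : ℝ) ≤ X / (10 * Real.log X) := by
    rw [hD]; exact Nat.floor_le (by positivity)
  have hDgt : (X : ℝ) / (10 * Real.log X) - 1 < D := by
    rw [hD]; exact Nat.sub_one_lt_floor _
  have hcspos : 0 < c * s := by positivity
  -- `D ≥ exp (c s) / (40 c s)`
  have hD2 : Real.exp (c * s) / (40 * (c * s)) ≤ D := by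
    have h9 : Real.exp (c * s) / (20 * (c * s)) ≤ (X : ℝ) / (10 * Real.log X) := by
      have h10 : Real.exp (c * s) / 2 ≤ X := by linarith
      calc Real.exp (c * s) / (20 * (c * s)) = (Real.exp (c * s) / 2) / (10 * (c * s)) := by
            field_simp
            norm_num
        _ ≤ (X : ℝ) / (10 * (c * s)) := by gcongr
        _ ≤ (X : ℝ) / (10 * Real.log X) := by gcongr
    have h11 : 1 ≤ Real.exp (c * s) / (40 * (c * s)) := by
      rw [le_div_iff₀ (by positivity), one_mul]
      rw [pow_one] at hs2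
      have h12 : Real.exp (c / 2 * s) ≤ Real.exp (c * s) := by
        apply Real.exp_le_exp.2
        nlinarith
      nlinarith
    have h13 : Real.exp (c * s) / (20 * (c * s)) = 2 * (Real.exp (c * s) / (40 * (c * s))) := by
      field_simp
      norm_num
    linarith
  obtain ⟨f, hf, hinj⟩ := hX₀ X hXX₀ D hDle
  refine ⟨D, f, ?_, fun i hi => (hf i hi).1, fun i hi => ?_, hinj, ?_⟩
  · have h11 : 1 ≤ Real.exp (c * s) / (40 * (c * s)) := by
      rw [le_div_iff₀ (by positivity), one_mul]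
      rw [pow_one] at hs2
      have h12 : Real.exp (c / 2 * s) ≤ Real.exp (c * s) := by
        apply Real.exp_le_exp.2
        nlinarith
      nlinarith
    exact_mod_cast h11.trans hD2
  · have h3 : ((f i : ℕ) : ℝ) ≤ X := by exact_mod_cast (hf i hi).2.2.2
    exact h3.trans hXle
  · calc 3 / 2 * s ^ 2 ≤ Real.exp (c * s) / (40 * (c * s)) * Real.exp (-(α * s)) := by
          rw [show Real.exp (c * s) / (40 * (c * s)) * Real.exp (-(α * s)) =
            Real.exp (c * s + -(α * s)) / (40 * (c * s)) by rw [Real.exp_add]; ring,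
            le_div_iff₀ (by positivity)]
          have e1 : c * s + -(α * s) = (c - α) / 2 * s + (c - α) / 2 * s := by ring
          rw [e1, Real.exp_add]
          have h14 : 1 ≤ Real.exp ((c - α) / 2 * s) := by
            apply Real.one_le_exp
            have : 0 < c - α := by linarith
            positivity
          have h15 : 3 / 2 * s ^ 2 * (40 * (c * s)) = 60 * c * s ^ 3 := by ring
          rw [h15]
          exact hs1.trans (le_mul_of_one_le_left (Real.exp_pos _).le h14)
      _ ≤ D * Real.exp (-(α * s)) := by gcongr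

open Classical in
/-- the density increases at most by a constant factor in the window `exp (c √(log N))` -/
theorem window {k : ℕ} (hk : 3 ≤ k) {c ε : ℝ} (hc : 0 < c) (hε : 0 < ε) :
    ∃ (Λ C : ℝ) (E : Set ℕ), 1 ≤ Λ ∧
      (∀ x : ℕ, 1 ≤ x → ∑ N ∈ (Icc 1 x).filter (fun N => N ∈ E), (1 : ℝ) / N ≤
        ε * Real.log x + C) ∧
      ∀ N : ℕ, 1 ≤ N → N ∉ E → ∀ M : ℕ, N * Real.exp (-(c * √(Real.log N))) ≤ M →
        d k M ≤ Λ * d k N := by
  obtain ⟨b, hb⟩ : ∃ b : ℝ, b = 2 * c + 2 := ⟨_, rfl⟩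
  have hb0 : 0 < b := by linarith
  obtain ⟨η, hη⟩ : ∃ η : ℝ, η = 16 * (b + 1) * (b + 2) / ε := ⟨_, rfl⟩
  have hη0 : 0 < η := by rw [hη]; positivity
  obtain ⟨J, hJ⟩ := exists_nat_gt ((c + 4) ^ 2)
  obtain ⟨B, hB⟩ : ∃ B : Set ℕ, B = {j | j < J ∨ η < f k (j - wid b j) - f k (j + 1)} := ⟨_, rfl⟩
  refine ⟨4 * Real.exp η, J + b ^ 2 / ε + ε, {N | Nat.log 2 N ∈ B}, ?_, fun x hx => ?_,
    fun N hN hNE M hM => ?_⟩
  · have := Real.add_one_le_exp η
    linarith
  · refine (sum_blocks _ B (fun N hN => hN) x).trans ?_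
    set K := Nat.log 2 x + 1 with hK
    set H := wid b K with hH
    have hK1 : (1 : ℝ) ≤ K := by rw [hK]; push_cast; linarith [Nat.cast_nonneg (α := ℝ) (Nat.log 2 x)]
    have h1 : (range K).filter (fun j => j ∈ B) ⊆ range J ∪ (range H ∪
        ((range K).filter (fun i => η < f k i - f k (i + (H + 1)))).image (fun i => i + H)) := by
      intro j hj
      rw [mem_filter, mem_range] at hj
      rw [mem_union, mem_union, mem_range, mem_range, mem_image]
      obtain ⟨hjK, hj⟩ := hj
      rw [hB] at hj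
      rcases hj with h | h
      · exact Or.inl h
      · right
        by_cases h2 : j < H
        · exact Or.inl h2
        · right
          refine ⟨j - H, ?_, by omega⟩
          rw [mem_filter, mem_range]
          refine ⟨by omega, ?_⟩
          have hw : wid b j ≤ H := wid_mono hb0.le hjK.le
          have h3 := f_anti hk (show j - H ≤ j - wid b j by omega)
          have h4 : j - H + (H + 1) = j + 1 := by omega
          rw [h4]
          linarith
    have h2 := (card_le_card h1).trans ((card_union_le _ _).trans (Nat.add_le_add_left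
      ((card_union_le _ _).trans (Nat.add_le_add_left card_image_le _)) _))
    rw [card_range, card_range] at h2
    have h3 := card_bad_le hk K (H + 1) hη0
    have h4 : (((range K).filter (fun j => j ∈ B)).card : ℝ) ≤
        J + (H + ((range K).filter (fun i => η < f k i - f k (i + (H + 1)))).card) := by
      exact_mod_cast h2
    have hHr : (H : ℝ) ≤ b * √(K : ℝ) := Nat.floor_le (by positivity)
    have hsq1 : 1 ≤ √(K : ℝ) := by
      rw [Real.one_le_sqrt]
      exact hK1
    have hss : √(K : ℝ) * √(K : ℝ) = K := Real.mul_self_sqrt (by linarith)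
    have h5 : (H : ℝ) + 1 ≤ (b + 1) * √(K : ℝ) := by nlinarith
    have h6 : √((K : ℝ) + ((H + 1 : ℕ) : ℝ)) ≤ (b + 2) * √(K : ℝ) := by
      rw [Real.sqrt_le_left (by positivity)]
      push_cast
      have h7 : (b + 1) * √(K : ℝ) ≤ (b + 1) * K := by
        have : 0 ≤ b + 1 := by linarith
        have h8 : √(K : ℝ) ≤ K := by
          calc √(K : ℝ) ≤ √(K : ℝ) * √(K : ℝ) := le_mul_of_one_le_left (by linarith) hsq1
            _ = K := hss
        exact mul_le_mul_of_nonneg_left h8 this
      have h9 : ((b + 2) * √(K : ℝ)) ^ 2 = (b + 2) ^ 2 * K := by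
        rw [mul_pow, pow_two (√(K : ℝ)), hss]
      rw [h9]
      nlinarith
    have h10 : 4 * ((H + 1 : ℕ) : ℝ) * √((K : ℝ) + ((H + 1 : ℕ) : ℝ)) / η ≤ ε / 4 * K := by
      rw [div_le_iff₀ hη0]
      calc 4 * ((H + 1 : ℕ) : ℝ) * √((K : ℝ) + ((H + 1 : ℕ) : ℝ))
          ≤ 4 * ((b + 1) * √(K : ℝ)) * ((b + 2) * √(K : ℝ)) := by
            push_cast
            push_cast at h6
            gcongr
        _ = 4 * (b + 1) * (b + 2) * (√(K : ℝ) * √(K : ℝ)) := by ring
        _ = ε / 4 * K * η := by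
            rw [hss, hη]
            field_simp
            ring
    have h11 : (H : ℝ) ≤ ε / 4 * K + b ^ 2 / ε := by
      refine hHr.trans ?_
      have h12 : b * √(K : ℝ) * ε ≤ (ε / 4 * K + b ^ 2 / ε) * ε := by
        have e1 : (ε / 4 * K + b ^ 2 / ε) * ε = ε ^ 2 / 4 * K + b ^ 2 := by field_simp
        rw [e1]
        nlinarith [sq_nonneg (ε / 2 * √(K : ℝ) - b)]
      exact le_of_mul_le_mul_right h12 hε
    have h13 := natlog_le hx
    have h14 : (K : ℝ) ≤ 3 / 2 * Real.log x + 1 := by rw [hK]; push_cast; linarith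
    have h15 : 0 ≤ Real.log x := Real.log_nonneg (by exact_mod_cast hx)
    have h16 : ε / 2 * K ≤ ε * Real.log x + ε := by nlinarith
    linarith
  · -- the comparison
    obtain ⟨j, hj⟩ : ∃ j, j = Nat.log 2 N := ⟨_, rfl⟩
    have hNE' : ¬ (j < J ∨ η < f k (j - wid b j) - f k (j + 1)) := by
      rw [hj]
      intro h
      apply hNE
      rw [hB]
      exact h
    rw [not_or, not_lt, not_lt] at hNE'
    obtain ⟨hJj, hgood⟩ := hNE'
    have hN0 : (0 : ℝ) < N := by exact_mod_cast hN
    have hM0 : (0 : ℝ) < M := lt_of_lt_of_le (by positivity) hM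
    have hM0' : 0 < M := by exact_mod_cast hM0
    have hN1 : (2 : ℝ) ^ j ≤ N := by
      rw [hj]
      exact_mod_cast Nat.pow_log_le_self 2 (by omega : N ≠ 0)
    have hN2 : (N : ℝ) ≤ 2 ^ (j + 1) := by
      rw [hj]
      exact_mod_cast (Nat.lt_pow_succ_log_self (by norm_num : 1 < 2) N).le
    have hL2 := Real.log_two_gt_d9
    have hL2' := Real.log_two_lt_d9
    have hs0 : 0 ≤ √(j : ℝ) := Real.sqrt_nonneg _
    have hSj : c + 4 ≤ √(j : ℝ) := by
      apply Real.le_sqrt_of_sq_le
      have : (J : ℝ) ≤ j := by exact_mod_cast hJj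
      linarith
    have h3 : √(Real.log N) ≤ √(j : ℝ) + 1 := by
      have h4 : Real.log N ≤ (j : ℝ) + 1 := by
        have h6 := Real.log_le_log hN0 hN2
        rw [Real.log_pow] at h6
        push_cast at h6
        have hj0 : (0 : ℝ) ≤ j := Nat.cast_nonneg _
        nlinarith
      calc √(Real.log N) ≤ √((j : ℝ) + 1) := Real.sqrt_le_sqrt h4
        _ ≤ √(j : ℝ) + 1 := by
          rw [Real.sqrt_le_left (by linarith)]
          have := Real.sq_sqrt (Nat.cast_nonneg j : (0 : ℝ) ≤ j)
          nlinarith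
    have hw : b * √(j : ℝ) - 1 ≤ wid b j := by
      have := Nat.lt_floor_add_one (b * √(j : ℝ))
      unfold wid
      linarith
    have hw0 : (0 : ℝ) ≤ wid b j := Nat.cast_nonneg _
    have h7 : c * √(Real.log N) ≤ wid b j * Real.log 2 := by
      have h8 : c * √(Real.log N) ≤ c * (√(j : ℝ) + 1) :=
        mul_le_mul_of_nonneg_left h3 hc.le
      have hcj : 0 ≤ c * √(j : ℝ) := by positivity
      have h9 : (b * √(j : ℝ) - 1) * (69 / 100) ≤ wid b j * Real.log 2 := by
        apply mul_le_mul hw (by linarith) (by norm_num) hw0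
      rw [hb] at h9
      nlinarith
    have h8 : Real.exp (c * √(Real.log N)) ≤ 2 ^ (wid b j) := by
      have e2 : Real.exp ((wid b j : ℕ) * Real.log 2) = 2 ^ (wid b j) := by
        rw [mul_comm, Real.exp_mul, Real.exp_log (by norm_num), Real.rpow_natCast]
      rw [← e2]
      exact Real.exp_le_exp.2 h7
    have hi : (2 : ℝ) ^ (j - wid b j) ≤ M := by
      rcases le_or_gt (wid b j) j with h | h
      · refine le_trans ?_ hM
        have e1 : (2 : ℝ) ^ (j - wid b j) * 2 ^ (wid b j) ≤ N := by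
          rw [← pow_add, Nat.sub_add_cancel h]
          exact hN1
        calc (2 : ℝ) ^ (j - wid b j) = (2 : ℝ) ^ (j - wid b j) *
              (Real.exp (c * √(Real.log N)) * Real.exp (-(c * √(Real.log N)))) := by
              rw [← Real.exp_add]; simp
          _ ≤ (2 : ℝ) ^ (j - wid b j) * (2 ^ (wid b j) * Real.exp (-(c * √(Real.log N)))) := by
              gcongr
          _ = ((2 : ℝ) ^ (j - wid b j) * 2 ^ (wid b j)) * Real.exp (-(c * √(Real.log N))) := by
              ring
          _ ≤ N * Real.exp (-(c * √(Real.log N))) := by gcongr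
      · have e1 : j - wid b j = 0 := by omega
        rw [e1, pow_zero]
        exact_mod_cast hM0'
    have hA : d k M ≤ 2 * d k (2 ^ (j - wid b j)) := by
      refine (d_le (k := k) (by omega) hM0' (N := 2 ^ (j - wid b j)) (by positivity)).trans ?_
      apply mul_le_mul_of_nonneg_right _ (d_pos hk Nat.one_le_two_pow).le
      push_cast
      have : (2 : ℝ) ^ (j - wid b j) / M ≤ 1 := by
        rw [div_le_one hM0]; exact hi
      linarith
    have hB' : d k (2 ^ (j - wid b j)) ≤ Real.exp η * d k (2 ^ (j + 1)) := by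
      have h4 : Real.log (d k (2 ^ (j - wid b j))) ≤ η + Real.log (d k (2 ^ (j + 1))) := by
        unfold f at hgood; linarith
      have h5 := Real.exp_le_exp.2 h4
      rwa [Real.exp_add, Real.exp_log (d_pos hk Nat.one_le_two_pow),
        Real.exp_log (d_pos hk Nat.one_le_two_pow)] at h5
    have hC : d k (2 ^ (j + 1)) ≤ 2 * d k N := by
      refine (d_le (k := k) (by omega) (M := 2 ^ (j + 1)) (by positivity) (N := N) (by omega)).trans ?_
      apply mul_le_mul_of_nonneg_right _ (d_pos hk hN).le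
      push_cast
      have : (N : ℝ) / 2 ^ (j + 1) ≤ 1 := by
        rw [div_le_one (by positivity)]; exact hN2
      linarith
    have hex := Real.exp_pos η
    calc d k M ≤ 2 * d k (2 ^ (j - wid b j)) := hA
      _ ≤ 2 * (Real.exp η * d k (2 ^ (j + 1))) := by gcongr
      _ ≤ 2 * (Real.exp η * (2 * d k N)) := by gcongr
      _ = 4 * Real.exp η * d k N := by ring

end Pool.Agent.R535.AP
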