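import Pool.Agent.H24.Lib.seeded_b0a926ef.R535.AP.Weights

/-!
# One container step, and iteration
-/

set_option autoImplicit false

open Finset

namespace Pool.Agent.R535.AP

open Pool.Agent.H617R3.AP Pool.Agent.R444.Supersat
open Pool.Agent.Y940.CT (Cov Spread Ind deg containers)

theorem ind_of_free {k : ℕ} {w : Finset ℕ → ℝ} (hw : ∀ e, w e ≠ 0 → IsProg k 1 e)
    {I : Finset ℕ} (hI : APFree k I) : Ind w I := by
  intro e he
  by_contra h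
  obtain ⟨a, q, hq, -, rfl⟩ := hw e h
  exact hI a q hq fun i hi => he (mem_image.2 ⟨i, mem_range.2 hi, rfl⟩)

theorem step {k : ℕ} (hk : 2 ≤ k) {κ : ℝ} (hκ : 0 < κ) (hκ1 : κ ≤ 1) :
    ∃ δ τ₀ : ℝ, 0 < δ ∧ δ ≤ 1 ∧ 0 < τ₀ ∧ τ₀ ≤ 1 ∧
    ∀ (N D : ℕ) (f : ℕ → ℕ), (∀ i < D, (f i).Prime) →
      (∀ i < D, ∀ j < D, i ≠ j → f i ≠ f j) → 1 ≤ D → ∀ U ⊆ Icc 1 N, ∀ τ : ℝ, 0 < τ → τ ≤ τ₀ →
      (∀ i < D, (f i : ℝ) * r k (N / f i + 1) ≤ (1 - κ) * U.card) →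
      (Nat.log 2 N : ℝ) ≤ D * τ ^ (k - 1) → 1 ≤ U.card * τ →
      Cov (fun I => I ⊆ U ∧ APFree k I) U
        (Real.exp (3 * k * (τ * Real.log τ⁻¹) * U.card)) ((1 - δ) * U.card) := by
  have hk0 : (0 : ℝ) < k := by exact_mod_cast (by omega : 0 < k)
  have hK : 1 ≤ (k : ℝ) / κ := by
    rw [le_div_iff₀ hκ, one_mul]
    have : (1 : ℝ) ≤ k := by exact_mod_cast (by omega : 1 ≤ k)
    linarith
  obtain ⟨δ, hδ0, hδ1, τ₀, hτ₀, hτ₁, h⟩ := containers k (by omega) (k / κ) hK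
  refine ⟨δ, min τ₀ (Real.exp (-1)), hδ0, hδ1, lt_min hτ₀ (Real.exp_pos _),
    (min_le_left _ _).trans hτ₁, ?_⟩
  intro N D f hp hinj hD U hU τ hτ0 hττ hf hτ h1
  have hτa : τ ≤ τ₀ := hττ.trans (min_le_left _ _)
  have hτb : τ ≤ Real.exp (-1) := hττ.trans (min_le_right _ _)
  have hτ1 : τ ≤ 1 := hτa.trans hτ₁
  obtain ⟨w, hw, hS⟩ := spread hk f hp hinj hU hκ hf hτ0 hτ1 hτ
  have hD0 : (0 : ℝ) < D := by exact_mod_cast hD
  have hUτ : 0 ≤ (U.card : ℝ) * τ := by positivity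
  have hc := h U w (D * (κ / k)) τ ⌈(U.card : ℝ) * τ⌉₊ (by positivity) hτ0 hτa (Nat.le_ceil _)
    (by
      have := (Nat.ceil_lt_add_one hUτ).le
      linarith) hS
  refine hc.mono (fun I hI => ⟨hI.1, ind_of_free hw hI.2⟩) ?_ le_rfl
  set q := ⌈(U.card : ℝ) * τ⌉₊ with hq
  have hq2 : (q : ℝ) ≤ 2 * (U.card * τ) := by
    have := (Nat.ceil_lt_add_one hUτ).le
    linarith
  have hlog : 1 ≤ Real.log τ⁻¹ := by
    rw [Real.log_inv]
    have := Real.log_le_log hτ0 hτb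
    rw [Real.log_exp] at this
    linarith
  have h2 : (τ⁻¹ : ℝ) ^ q = Real.exp (q * Real.log τ⁻¹) := by
    rw [mul_comm, Real.exp_mul, Real.exp_log (by positivity), Real.rpow_natCast]
  have h3 : (1 + τ) ^ U.card ≤ Real.exp (U.card * τ) := by
    rw [mul_comm, Real.exp_mul, Real.rpow_natCast]
    apply pow_le_pow_left₀ (by positivity)
    have := Real.add_one_le_exp τ
    linarith
  have hmain : (τ⁻¹ : ℝ) ^ q * (1 + τ) ^ U.card ≤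
      Real.exp (3 * (τ * Real.log τ⁻¹) * U.card) := by
    calc (τ⁻¹ : ℝ) ^ q * (1 + τ) ^ U.card
        ≤ Real.exp (q * Real.log τ⁻¹) * Real.exp (U.card * τ) := by
          rw [h2]
          gcongr
      _ = Real.exp (q * Real.log τ⁻¹ + U.card * τ) := by rw [← Real.exp_add]
      _ ≤ _ := by
          apply Real.exp_le_exp.2
          have h4 : (q : ℝ) * Real.log τ⁻¹ ≤ 2 * (U.card * τ) * Real.log τ⁻¹ := by
            gcongr
          have h5 : (U.card : ℝ) * τ ≤ U.card * τ * Real.log τ⁻¹ :=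
            le_mul_of_one_le_right hUτ hlog
          nlinarith
  calc ((τ⁻¹ : ℝ) ^ q * (1 + τ) ^ U.card) ^ (k - 1)
      ≤ (Real.exp (3 * (τ * Real.log τ⁻¹) * U.card)) ^ (k - 1) :=
        pow_le_pow_left₀ (by positivity) hmain _
    _ ≤ (Real.exp (3 * (τ * Real.log τ⁻¹) * U.card)) ^ k := by
        apply pow_le_pow_right₀ _ (by omega)
        apply Real.one_le_exp
        positivity
    _ = _ := by
        rw [← Real.exp_nat_mul]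
        congr 1
        ring

open Classical in
/-- iterating the step down to the size `m` -/
theorem iterate {P : Finset ℕ → Prop} {V : Finset ℕ} {m b δ : ℝ} (hb : 0 ≤ b) (hδ0 : 0 < δ)
    (hδ1 : δ ≤ 1)
    (hstep : ∀ U ⊆ V, m < (U.card : ℝ) → Cov (fun I => I ⊆ U ∧ P I) U (Real.exp b)
      ((1 - δ) * U.card)) : ∀ (J : ℕ) (U : Finset ℕ), U ⊆ V →
      Cov (fun I => I ⊆ U ∧ P I) U (Real.exp (J * b)) (max m ((1 - δ) ^ J * U.card)) := by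
  intro J
  induction J with
  | zero =>
    intro U hU
    refine ⟨{U}, ?_, ?_, ?_⟩
    · simp
    · intro C hC
      rw [mem_singleton] at hC
      subst hC
      refine ⟨Subset.rfl, ?_⟩
      rw [pow_zero, one_mul]
      exact le_max_right _ _
    · intro I hI
      exact ⟨U, mem_singleton_self _, hI.1⟩
  | succ J ih =>
    intro U hU
    rcases lt_or_ge m (U.card : ℝ) with h | h
    · obtain ⟨𝒞, h1, h2, h3⟩ := hstep U hU h
      have h4 : ∀ C ∈ 𝒞, C ⊆ V := fun C hC => (h2 C hC).1.trans hU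
      have h5 : ∀ C : Finset ℕ, ∃ 𝒟 : Finset (Finset ℕ), C ∈ 𝒞 →
          ((𝒟.card : ℝ) ≤ Real.exp (J * b) ∧
          (∀ D ∈ 𝒟, D ⊆ C ∧ (D.card : ℝ) ≤ max m ((1 - δ) ^ J * C.card)) ∧
          ∀ I, (I ⊆ C ∧ P I) → ∃ D ∈ 𝒟, I ⊆ D) := by
        intro C
        by_cases hC : C ∈ 𝒞
        · obtain ⟨𝒟, hD⟩ := ih C (h4 C hC)
          exact ⟨𝒟, fun _ => hD⟩
        · exact ⟨∅, fun h => absurd h hC⟩
      choose 𝒟 h𝒟 using h5
      refine ⟨𝒞.biUnion 𝒟, ?_, ?_, ?_⟩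
      · calc ((𝒞.biUnion 𝒟).card : ℝ) ≤ ∑ C ∈ 𝒞, ((𝒟 C).card : ℝ) := by
              exact_mod_cast card_biUnion_le
          _ ≤ ∑ _C ∈ 𝒞, Real.exp (J * b) := sum_le_sum fun C hC => (h𝒟 C hC).1
          _ = 𝒞.card * Real.exp (J * b) := by rw [sum_const, nsmul_eq_mul]
          _ ≤ Real.exp b * Real.exp (J * b) := by gcongr
          _ = Real.exp ((J + 1 : ℕ) * b) := by
              rw [← Real.exp_add]
              congr 1
              push_cast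
              ring
      · intro D hD
        obtain ⟨C, hC, hDC⟩ := mem_biUnion.1 hD
        obtain ⟨h6, h7⟩ := (h𝒟 C hC).2.1 D hDC
        refine ⟨h6.trans (h2 C hC).1, h7.trans (max_le_max le_rfl ?_)⟩
        rw [pow_succ, mul_assoc]
        apply mul_le_mul_of_nonneg_left (h2 C hC).2
        apply pow_nonneg
        linarith
      · intro I hI
        obtain ⟨C, hC, hIC⟩ := h3 I hI
        obtain ⟨D, hD, hID⟩ := (h𝒟 C hC).2.2 I ⟨hIC, hI.2⟩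
        exact ⟨D, mem_biUnion.2 ⟨C, hC, hD⟩, hID⟩
    · refine ⟨{U}, ?_, ?_, ?_⟩
      · rw [card_singleton, Nat.cast_one]
        apply Real.one_le_exp
        positivity
      · intro C hC
        rw [mem_singleton] at hC
        subst hC
        exact ⟨Subset.rfl, h.trans (le_max_left _ _)⟩
      · intro I hI
        exact ⟨U, mem_singleton_self _, hI.1⟩

/-- composing two coverings -/
theorem comp {P : Finset ℕ → Prop} {V : Finset ℕ} {n₁ n₂ γ₁ γ₂ : ℝ} (hn : 0 ≤ n₂)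
    (h1 : Cov (fun I => I ⊆ V ∧ P I) V n₁ γ₁)
    (h2 : ∀ U ⊆ V, (U.card : ℝ) ≤ γ₁ → Cov (fun I => I ⊆ U ∧ P I) U n₂ γ₂) :
    Cov (fun I => I ⊆ V ∧ P I) V (n₁ * n₂) γ₂ := by
  classical
  obtain ⟨𝒞, a1, a2, a3⟩ := h1
  have h5 : ∀ C : Finset ℕ, ∃ 𝒟 : Finset (Finset ℕ), C ∈ 𝒞 →
      ((𝒟.card : ℝ) ≤ n₂ ∧ (∀ D ∈ 𝒟, D ⊆ C ∧ (D.card : ℝ) ≤ γ₂) ∧
      ∀ I, (I ⊆ C ∧ P I) → ∃ D ∈ 𝒟, I ⊆ D) := by
    intro C
    by_cases hC : C ∈ 𝒞
    · obtain ⟨𝒟, hD⟩ := h2 C (a2 C hC).1 (a2 C hC).2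
      exact ⟨𝒟, fun _ => hD⟩
    · exact ⟨∅, fun h => absurd h hC⟩
  choose 𝒟 h𝒟 using h5
  refine ⟨𝒞.biUnion 𝒟, ?_, ?_, ?_⟩
  · calc ((𝒞.biUnion 𝒟).card : ℝ) ≤ ∑ C ∈ 𝒞, ((𝒟 C).card : ℝ) := by
          exact_mod_cast card_biUnion_le
      _ ≤ ∑ _C ∈ 𝒞, n₂ := sum_le_sum fun C hC => (h𝒟 C hC).1
      _ = 𝒞.card * n₂ := by rw [sum_const, nsmul_eq_mul]
      _ ≤ n₁ * n₂ := by gcongr
  · intro D hD
    obtain ⟨C, hC, hDC⟩ := mem_biUnion.1 hD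
    obtain ⟨h6, h7⟩ := (h𝒟 C hC).2.1 D hDC
    exact ⟨h6.trans (a2 C hC).1, h7⟩
  · intro I hI
    obtain ⟨C, hC, hIC⟩ := a3 I hI
    obtain ⟨D, hD, hID⟩ := (h𝒟 C hC).2.2 I ⟨hIC, hI.2⟩
    exact ⟨D, mem_biUnion.2 ⟨C, hC, hD⟩, hID⟩

end Pool.Agent.R535.AP
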