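import Pool.Agent.H24.Lib.seeded_b0a926ef.R444.Supersat3
import Pool.Agent.H24.Lib.R_seed8.Y940.CT.Cont

/-!
# Balanced weights on the progressions in a set above the threshold
-/

set_option autoImplicit false

open Finset

namespace Pool.Agent.R535.AP

open Pool.Agent.H617R3.AP Pool.Agent.R444.Supersat
open Pool.Agent.Y940.CT (Cov Spread Ind deg containers)

/-- `e` is the set of the terms of a `k`-term progression whose difference is divisible by `d`. -/
def IsProg (k d : ℕ) (e : Finset ℕ) : Prop :=
  ∃ a q : ℕ, 1 ≤ q ∧ d ∣ q ∧ e = (range k).image (fun i => a + i * q)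

theorem IsProg.card {k d : ℕ} {e : Finset ℕ} (h : IsProg k d e) : e.card = k := by
  obtain ⟨a, q, hq, -, rfl⟩ := h
  rw [card_image_of_injective, card_range]
  intro i j hij
  have h1 : i * q = j * q := by
    simp only at hij
    omega
  exact Nat.eq_of_mul_eq_mul_right hq h1

theorem IsProg.dvd {k d : ℕ} {e : Finset ℕ} (h : IsProg k d e) {x y : ℕ} (hx : x ∈ e)
    (hy : y ∈ e) (hxy : x ≤ y) : d ∣ y - x := by
  obtain ⟨a, q, hq, hd, rfl⟩ := h
  obtain ⟨i, -, rfl⟩ := mem_image.1 hx
  obtain ⟨j, -, rfl⟩ := mem_image.1 hy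
  have hij : i * q ≤ j * q := by omega
  have e1 : a + j * q - (a + i * q) = (j - i) * q := by
    rw [Nat.sub_mul]
    omega
  rw [e1]
  exact Dvd.dvd.mul_left hd _

theorem free_le {k N d : ℕ} (hk : 2 ≤ k) (hd : 1 ≤ d) {U : Finset ℕ} (hU : U ⊆ Icc 1 N)
    (h : ∀ e ⊆ U, ¬ IsProg k d e) : U.card ≤ d * r k (N / d + 1) := by
  classical
  have h1 := delete hk hd hU
  have h2 : apCount k N d U = 0 := by
    rw [apCount_eq, card_eq_zero, filter_eq_empty_iff]
    rintro ⟨a, q⟩ hp ⟨hdq, hall⟩
    rw [mem_product, mem_Icc, mem_Icc] at hp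
    refine h ((range k).image (fun i => a + i * q)) ?_ ⟨a, q, hp.2.1, hdq, rfl⟩
    intro x hx
    obtain ⟨i, hi, rfl⟩ := mem_image.1 hx
    exact hall i (mem_range.1 hi)
  omega

theorem family {k N d : ℕ} (hk : 2 ≤ k) (hd : 1 ≤ d) : ∀ (n : ℕ) (U : Finset ℕ), U.card = n →
    U ⊆ Icc 1 N → ∃ F : Finset (Finset ℕ), (∀ e ∈ F, e ⊆ U ∧ IsProg k d e) ∧
      (∀ e ∈ F, ∀ e' ∈ F, ∀ x ∈ e, x ∈ e' → e = e') ∧
      U.card ≤ k * F.card + d * r k (N / d + 1) := by
  classical
  intro n
  induction n using Nat.strong_induction_on with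
  | _ n ih =>
    intro U hUn hU
    by_cases h : ∀ e ⊆ U, ¬ IsProg k d e
    · refine ⟨∅, by simp, by simp, ?_⟩
      rw [card_empty, mul_zero, zero_add]
      exact free_le hk hd hU h
    · push Not at h
      obtain ⟨e, heU, he⟩ := h
      have hec := he.card
      have hc : (U \ e).card = U.card - k := by
        rw [card_sdiff_of_subset heU, hec]
      have hkU : k ≤ U.card := by
        rw [← hec]
        exact card_le_card heU
      obtain ⟨F, hF1, hF2, hF3⟩ := ih (U \ e).card (by omega) (U \ e) rfl
        (sdiff_subset.trans hU)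
      have hdisj : ∀ e' ∈ F, ∀ x ∈ e', x ∉ e := by
        intro e' he' x hx
        exact (mem_sdiff.1 ((hF1 e' he').1 hx)).2
      have heF : e ∉ F := by
        intro heF
        have hne : e.Nonempty := by
          rw [← card_pos]
          omega
        obtain ⟨x, hx⟩ := hne
        exact hdisj e heF x hx hx
      refine ⟨insert e F, ?_, ?_, ?_⟩
      · intro e' he'
        rcases mem_insert.1 he' with rfl | he'
        · exact ⟨heU, he⟩
        · exact ⟨(hF1 e' he').1.trans sdiff_subset, (hF1 e' he').2⟩
      · intro e₁ h₁ e₂ h₂ x hx₁ hx₂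
        rcases mem_insert.1 h₁ with h3 | h3 <;> rcases mem_insert.1 h₂ with h4 | h4
        · rw [h3, h4]
        · rw [h3] at hx₁
          exact absurd hx₁ (hdisj _ h4 x hx₂)
        · rw [h4] at hx₂
          exact absurd hx₂ (hdisj _ h3 x hx₁)
        · exact hF2 _ h3 _ h4 x hx₁ hx₂
      · rw [card_insert_of_notMem heF, mul_add, mul_one]
        omega

/-- the number of distinct primes from a list that divide `m` -/
theorem primes_dvd {N D : ℕ} (f : ℕ → ℕ) (hp : ∀ i < D, (f i).Prime)
    (hinj : ∀ i < D, ∀ j < D, i ≠ j → f i ≠ f j) {m : ℕ} (hm : 1 ≤ m) (hmN : m ≤ N) :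
    ((range D).filter (fun i => f i ∣ m)).card ≤ Nat.log 2 N := by
  classical
  set I := (range D).filter (fun i => f i ∣ m) with hI
  have hprod : ∏ i ∈ I, f i ∣ m := by
    apply Finset.prod_dvd_of_isRelPrime
    · intro i hi j hj hij
      have hi' := mem_range.mp (mem_filter.mp (mem_coe.mp hi)).1
      have hj' := mem_range.mp (mem_filter.mp (mem_coe.mp hj)).1
      exact Nat.coprime_iff_isRelPrime.mp
        ((Nat.coprime_primes (hp i hi') (hp j hj')).mpr (hinj i hi' j hj' hij))
    · intro i hi
      exact (mem_filter.mp hi).2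
  have h2 : 2 ^ I.card ≤ m := by
    calc 2 ^ I.card = ∏ _i ∈ I, 2 := by rw [prod_const]
      _ ≤ ∏ i ∈ I, f i := prod_le_prod' fun i hi => (hp i (mem_range.mp (mem_filter.mp hi).1)).two_le
      _ ≤ m := Nat.le_of_dvd (by omega) hprod
  calc I.card ≤ Nat.log 2 m := Nat.le_log_of_pow_le (by norm_num) h2
    _ ≤ Nat.log 2 N := Nat.log_mono_right hmN

theorem spread {k N D : ℕ} (hk : 2 ≤ k) (f : ℕ → ℕ) (hp : ∀ i < D, (f i).Prime)
    (hinj : ∀ i < D, ∀ j < D, i ≠ j → f i ≠ f j) {U : Finset ℕ} (hU : U ⊆ Icc 1 N) {κ τ : ℝ}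
    (hκ : 0 < κ) (hf : ∀ i < D, (f i : ℝ) * r k (N / f i + 1) ≤ (1 - κ) * U.card)
    (hτ0 : 0 < τ) (hτ1 : τ ≤ 1) (hτ : (Nat.log 2 N : ℝ) ≤ D * τ ^ (k - 1)) :
    ∃ w : Finset ℕ → ℝ, (∀ e, w e ≠ 0 → IsProg k 1 e) ∧
      Spread U k w (D * (κ / k)) (k / κ) τ := by
  classical
  have hk0 : (0 : ℝ) < k := by exact_mod_cast (by omega : 0 < k)
  have hfam : ∀ i : ℕ, ∃ F : Finset (Finset ℕ), i < D → (∀ e ∈ F, e ⊆ U ∧ IsProg k (f i) e) ∧
      (∀ e ∈ F, ∀ e' ∈ F, ∀ x ∈ e, x ∈ e' → e = e') ∧
      U.card ≤ k * F.card + f i * r k (N / f i + 1) := by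
    intro i
    by_cases hi : i < D
    · obtain ⟨F, h⟩ := family (N := N) hk (hp i hi).one_lt.le U.card U rfl hU
      exact ⟨F, fun _ => h⟩
    · exact ⟨∅, fun h => absurd h hi⟩
  choose F hF using hfam
  have hKD : (k / κ : ℝ) * (D * (κ / k)) = D := by
    field_simp
  refine ⟨fun e => (((range D).filter (fun i => e ∈ F i)).card : ℝ), ?_, ?_, ?_, ?_, ?_⟩
  · intro e he
    have h1 : ((range D).filter (fun i => e ∈ F i)).Nonempty := by
      rw [← card_pos]
      have : ((range D).filter (fun i => e ∈ F i)).card ≠ 0 := by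
        intro h0
        apply he
        simp only [h0, Nat.cast_zero]
      omega
    obtain ⟨i, hi⟩ := h1
    rw [mem_filter, mem_range] at hi
    obtain ⟨a, q, hq, -, rfl⟩ := ((hF i hi.1).1 e hi.2).2
    exact ⟨a, q, hq, one_dvd _, rfl⟩
  · intro e
    positivity
  · intro e he
    have h1 : ((range D).filter (fun i => e ∈ F i)).Nonempty := by
      rw [← card_pos]
      have : ((range D).filter (fun i => e ∈ F i)).card ≠ 0 := by
        intro h0
        apply he
        simp only [h0, Nat.cast_zero]
      omega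
    obtain ⟨i, hi⟩ := h1
    rw [mem_filter, mem_range] at hi
    exact ⟨((hF i hi.1).1 e hi.2).1, ((hF i hi.1).1 e hi.2).2.card⟩
  · -- the total weight
    have h1 : ∑ e ∈ U.powerset, (((range D).filter (fun i => e ∈ F i)).card : ℝ) =
        ∑ i ∈ range D, ((F i).card : ℝ) := by
      have h2 : ∀ e : Finset ℕ, (((range D).filter (fun i => e ∈ F i)).card : ℝ) =
          ∑ i ∈ range D, if e ∈ F i then (1 : ℝ) else 0 := by
        intro e
        rw [card_eq_sum_ones, sum_filter]
        push_cast
        rfl
      simp only [h2]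
      rw [sum_comm]
      apply sum_congr rfl
      intro i hi
      rw [mem_range] at hi
      rw [← sum_filter, sum_const, nsmul_eq_mul, mul_one]
      congr 1
      congr 1
      ext e
      rw [mem_filter, mem_powerset]
      exact ⟨fun h => h.2, fun h => ⟨((hF i hi).1 e h).1, h⟩⟩
    rw [h1]
    have h3 : ∀ i ∈ range D, κ / k * (U.card : ℝ) ≤ ((F i).card : ℝ) := by
      intro i hi
      rw [mem_range] at hi
      have h4 := (hF i hi).2.2
      have h5 : (U.card : ℝ) ≤ k * (F i).card + f i * r k (N / f i + 1) := by exact_mod_cast h4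
      have h6 := hf i hi
      rw [div_mul_eq_mul_div, div_le_iff₀ hk0]
      nlinarith
    calc (U.card : ℝ) * (D * (κ / k)) = ∑ i ∈ range D, κ / k * (U.card : ℝ) := by
          rw [sum_const, card_range, nsmul_eq_mul]
          ring
      _ ≤ _ := sum_le_sum h3
  · -- the codegrees
    intro J hJ
    rw [hKD]
    have hdeg : deg U (fun e => (((range D).filter (fun i => e ∈ F i)).card : ℝ)) J =
        ∑ i ∈ range D, (((F i).filter (fun e => J ⊆ e)).card : ℝ) := by
      unfold deg
      have h2 : ∀ e : Finset ℕ, (if J ⊆ e then (((range D).filter (fun i => e ∈ F i)).card : ℝ)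
          else 0) = ∑ i ∈ range D, if (e ∈ F i ∧ J ⊆ e) then (1 : ℝ) else 0 := by
        intro e
        by_cases hJe : J ⊆ e
        · rw [if_pos hJe, card_eq_sum_ones, sum_filter]
          push_cast
          apply sum_congr rfl
          intro i _
          simp only [hJe, and_true]
        · rw [if_neg hJe]
          symm
          apply sum_eq_zero
          intro i _
          rw [if_neg]
          tauto
      simp only [h2]
      rw [sum_comm]
      apply sum_congr rfl
      intro i hi
      rw [mem_range] at hi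
      rw [← sum_filter, sum_const, nsmul_eq_mul, mul_one]
      congr 1
      congr 1
      ext e
      simp only [mem_filter, mem_powerset]
      exact ⟨fun h => h.2, fun h => ⟨((hF i hi).1 e h.1).1, h⟩⟩
    have hone : ∀ i < D, ((F i).filter (fun e => J ⊆ e)).card ≤ 1 := by
      intro i hi
      rw [card_le_one]
      intro e he e' he'
      rw [mem_filter] at he he'
      obtain ⟨x, hx⟩ := hJ
      exact (hF i hi).2.1 e he.1 e' he'.1 x (he.2 hx) (he'.2 hx)
    have hbound : deg U (fun e => (((range D).filter (fun i => e ∈ F i)).card : ℝ)) J ≤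
        (((range D).filter (fun i => ∃ e ∈ F i, J ⊆ e)).card : ℝ) := by
      rw [hdeg, card_eq_sum_ones, sum_filter]
      push_cast
      apply sum_le_sum
      intro i hi
      rw [mem_range] at hi
      split_ifs with h
      · exact_mod_cast hone i hi
      · have h3 : (F i).filter (fun e => J ⊆ e) = ∅ := by
          rw [filter_eq_empty_iff]
          intro e he hJe
          exact h ⟨e, he, hJe⟩
        rw [h3]
        simp
    rcases Nat.lt_or_ge J.card 2 with h2 | h2
    · have h1 : J.card = 1 := by
        have := hJ.card_pos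
        omega
      rw [h1, pow_one]
      apply mul_le_mul_of_nonneg_right _ hτ0.le
      refine hbound.trans ?_
      have := card_filter_le (range D) (fun i => ∃ e ∈ F i, J ⊆ e)
      rw [card_range] at this
      exact_mod_cast this
    · -- at least two points
      rcases Nat.lt_or_ge k J.card with h3 | h3
      · have h4 : (range D).filter (fun i => ∃ e ∈ F i, J ⊆ e) = ∅ := by
          rw [filter_eq_empty_iff]
          rintro i hi ⟨e, he, hJe⟩
          rw [mem_range] at hi
          have h5 := card_le_card hJe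
          rw [((hF i hi).1 e he).2.card] at h5
          omega
        rw [h4] at hbound
        simp only [card_empty, Nat.cast_zero] at hbound
        calc _ ≤ 0 * τ := mul_le_mul_of_nonneg_right hbound hτ0.le
          _ = 0 := zero_mul _
          _ ≤ _ := by positivity
      · obtain ⟨x, hx, y, hy, hxy⟩ := Finset.one_lt_card.1 (show 1 < J.card by omega)
        wlog hlt : x < y generalizing x y
        · exact this y hy x hx hxy.symm (by omega)
        have h4 : (range D).filter (fun i => ∃ e ∈ F i, J ⊆ e) ⊆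
            (range D).filter (fun i => f i ∣ y - x) := by
          intro i hi
          rw [mem_filter, mem_range] at hi
          obtain ⟨hi, e, he, hJe⟩ := hi
          rw [mem_filter, mem_range]
          exact ⟨hi, ((hF i hi).1 e he).2.dvd (hJe hx) (hJe hy) hlt.le⟩
        by_cases hemp : (range D).filter (fun i => ∃ e ∈ F i, J ⊆ e) = ∅
        · rw [hemp] at hbound
          simp only [card_empty, Nat.cast_zero] at hbound
          calc _ ≤ 0 * τ := mul_le_mul_of_nonneg_right hbound hτ0.le
            _ = 0 := zero_mul _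
            _ ≤ _ := by positivity
        · obtain ⟨i, hi⟩ := Finset.nonempty_iff_ne_empty.2 hemp
          rw [mem_filter, mem_range] at hi
          obtain ⟨hi, e, he, hJe⟩ := hi
          have hyN : y ≤ N := (mem_Icc.1 (hU (((hF i hi).1 e he).1 (hJe hy)))).2
          have h5 := primes_dvd f hp hinj (m := y - x) (N := N) (by omega) (by omega)
          have h6 : (((range D).filter (fun i => ∃ e ∈ F i, J ⊆ e)).card : ℝ) ≤ Nat.log 2 N := by
            exact_mod_cast (card_le_card h4).trans h5
          calc _ ≤ (Nat.log 2 N : ℝ) * τ :=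
                mul_le_mul_of_nonneg_right (hbound.trans h6) hτ0.le
            _ ≤ (D * τ ^ (k - 1)) * τ := mul_le_mul_of_nonneg_right hτ hτ0.le
            _ = D * τ ^ k := by
                rw [mul_assoc, ← pow_succ]
                congr 2
                omega
            _ ≤ D * τ ^ J.card := by
                apply mul_le_mul_of_nonneg_left _ (by positivity)
                exact pow_le_pow_of_le_one hτ0.le hτ1 h3

end Pool.Agent.R535.AP
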